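import Pool.Agent.Helper57.KE.St

/-!
# Project KE, module VPR: properties of the weights
-/

set_option autoImplicit false

open scoped BigOperators
open Finset

namespace Pool.Agent.Helper75.KE

open Pool.Agent.Helper57.KE Pool.Agent.Helper57.KR Pool.Agent.Helper65.RG

/-- the factor -/
private noncomputable def wf (a : ℝ) (i0 l : ℕ) : ℝ := 1 + 2 * a / ((l : ℝ) + i0)

/-- the product -/
private noncomputable def V (a : ℝ) (i0 n : ℕ) : ℝ := ∏ l ∈ range n, wf a i0 l

private theorem vv_eq (a : ℝ) (i0 M j : ℕ) : vv a i0 M j = V a i0 (min j M) := rfl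

private theorem V_succ (a : ℝ) (i0 n : ℕ) : V a i0 (n + 1) = V a i0 n * wf a i0 n := by
  unfold V
  rw [prod_range_succ]

private theorem x_pos {i0 : ℕ} (h : 1 ≤ i0) (l : ℕ) : (1 : ℝ) ≤ (l : ℝ) + i0 := by
  have h1 : (1 : ℝ) ≤ i0 := by exact_mod_cast h
  have h2 : (0 : ℝ) ≤ l := Nat.cast_nonneg l
  linarith

private theorem wf_ge {a : ℝ} {i0 : ℕ} (ha : 0 < a) (h : 1 ≤ i0) (l : ℕ) : 1 ≤ wf a i0 l := by
  unfold wf
  have h1 := x_pos h l
  have h2 : 0 ≤ 2 * a / ((l : ℝ) + i0) := div_nonneg (by linarith) (by linarith)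
  linarith

private theorem V_pos {a : ℝ} {i0 : ℕ} (ha : 0 < a) (h : 1 ≤ i0) (n : ℕ) : 0 < V a i0 n := by
  unfold V
  exact prod_pos fun l _ => lt_of_lt_of_le one_pos (wf_ge ha h l)

private theorem V_mono {a : ℝ} {i0 : ℕ} (ha : 0 < a) (h : 1 ≤ i0) : Monotone (V a i0) := by
  refine monotone_nat_of_le_succ fun n => ?_
  rw [V_succ]
  exact le_mul_of_one_le_right (V_pos ha h n).le (wf_ge ha h n)

private theorem V_anti {a : ℝ} {i0 : ℕ} (ha : 0 < a) (ha2 : a < 1 / 2) (h : 1 ≤ i0) :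
    Antitone fun n : ℕ => V a i0 n / ((n : ℝ) + i0) := by
  refine antitone_nat_of_succ_le fun n => ?_
  have h1 := x_pos h n
  have hV := V_pos ha h n
  have h2 : (0 : ℝ) < ((n + 1 : ℕ) : ℝ) + i0 := by push_cast; linarith
  have h3 : (0 : ℝ) < (n : ℝ) + i0 := by linarith
  rw [V_succ, div_le_div_iff₀ h2 h3]
  have h4 : wf a i0 n * ((n : ℝ) + i0) ≤ ((n + 1 : ℕ) : ℝ) + i0 := by
    unfold wf
    push_cast
    have e : (1 + 2 * a / ((n : ℝ) + i0)) * ((n : ℝ) + i0) = (n : ℝ) + i0 + 2 * a := by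
      field_simp
    rw [e]
    linarith
  calc V a i0 n * wf a i0 n * ((n : ℝ) + i0) = V a i0 n * (wf a i0 n * ((n : ℝ) + i0)) := by ring
    _ ≤ V a i0 n * (((n + 1 : ℕ) : ℝ) + i0) := mul_le_mul_of_nonneg_left h4 hV.le

private theorem V_ratio {a : ℝ} {i0 : ℕ} (ha : 0 < a) (ha2 : a < 1 / 2) (h : 1 ≤ i0) {n m : ℕ}
    (hnm : n ≤ m) : V a i0 m / V a i0 n ≤ ((m : ℝ) + i0) / ((n : ℝ) + i0) := by
  have h1 := V_anti ha ha2 h hnm
  have hn := x_pos h n
  have hm := x_pos h m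
  have h2 : V a i0 m / ((m : ℝ) + i0) ≤ V a i0 n / ((n : ℝ) + i0) := h1
  rw [div_le_div_iff₀ (by linarith) (by linarith)] at h2
  rw [div_le_div_iff₀ (V_pos ha h n) (by linarith)]
  linarith

private theorem V_growth {a : ℝ} {i0 : ℕ} (ha : 0 < a) (ha2 : a < 1 / 2) (h : 1 ≤ i0) (n : ℕ) :
    (((n : ℝ) + i0) / i0) ^ (2 * a) ≤ V a i0 n := by
  have hi : (0 : ℝ) < i0 := by exact_mod_cast h
  induction n with
  | zero =>
    have e : (((0 : ℕ) : ℝ) + i0) / i0 = 1 := by
      rw [Nat.cast_zero, zero_add, div_self hi.ne']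
    rw [e, Real.one_rpow]
    unfold V
    simp
  | succ n ih =>
    have h1 := x_pos h n
    have h3 : (0 : ℝ) < (n : ℝ) + i0 := by linarith
    have e : (((n + 1 : ℕ) : ℝ) + i0) / i0 = (((n : ℝ) + i0) / i0) * (1 + 1 / ((n : ℝ) + i0)) := by
      push_cast
      field_simp
      ring
    rw [e, Real.mul_rpow (by positivity) (by positivity), V_succ]
    have hb : (1 + 1 / ((n : ℝ) + i0)) ^ (2 * a) ≤ 1 + 2 * a * (1 / ((n : ℝ) + i0)) :=
      _root_.rpow_one_add_le_one_add_mul_self (by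
        have : (0 : ℝ) ≤ 1 / ((n : ℝ) + i0) := by positivity
        linarith) (by linarith) (by linarith)
    have hw : 1 + 2 * a * (1 / ((n : ℝ) + i0)) = wf a i0 n := by
      unfold wf
      ring
    rw [hw] at hb
    exact mul_le_mul ih hb (by positivity) (V_pos ha h n).le

private theorem V_sum {a : ℝ} {i0 : ℕ} (ha : 0 < a) (ha2 : a < 1 / 2) (h : 1 ≤ i0) (n : ℕ) :
    V a i0 n * ∑ j ∈ range n, (V a i0 j)⁻¹ ≤ 2 / (1 - 2 * a) * ((n : ℝ) + i0) := by
  have h12 : 0 < 1 - 2 * a := by linarith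
  have hK : 2 / (1 - 2 * a) * (1 - 2 * a) = 2 := div_mul_cancel₀ _ h12.ne'
  have hK0 : 0 < 2 / (1 - 2 * a) := by positivity
  generalize 2 / (1 - 2 * a) = K at hK hK0
  induction n with
  | zero =>
    rw [range_zero, sum_empty, mul_zero]
    have := x_pos h 0
    positivity
  | succ n ih =>
    have h1 := x_pos h n
    have hV := V_pos ha h n
    have e : V a i0 (n + 1) * ∑ j ∈ range (n + 1), (V a i0 j)⁻¹ =
        wf a i0 n * (V a i0 n * ∑ j ∈ range n, (V a i0 j)⁻¹ + 1) := by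
      rw [V_succ, sum_range_succ]
      field_simp
    rw [e]
    have hw := wf_ge ha h n
    have h2 : wf a i0 n * (V a i0 n * ∑ j ∈ range n, (V a i0 j)⁻¹ + 1) ≤
        wf a i0 n * (K * ((n : ℝ) + i0) + 1) :=
      mul_le_mul_of_nonneg_left (by linarith) (by linarith)
    refine h2.trans ?_
    unfold wf
    push_cast
    set x : ℝ := (n : ℝ) + i0 with hx
    have hx0 : 0 < x := by linarith
    have e2 : (1 + 2 * a / x) * (K * x + 1) = K * x + 1 + 2 * a * K + 2 * a / x := by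
      field_simp
      ring
    rw [e2]
    have h3 : 2 * a / x ≤ 1 := by
      rw [div_le_one hx0]
      linarith
    have h4 : K * ((n : ℝ) + 1 + i0) = K * x + K := by
      rw [hx]; ring
    rw [h4]
    nlinarith

/-- VPR. -/
theorem hVPR : StVPR := by
  intro a i0 M ha ha2 hi
  have hi0 : (0 : ℝ) < i0 := by exact_mod_cast hi
  have h12 : 0 < 1 - 2 * a := by linarith
  have hsq : ∀ j, ph a i0 M j ^ 2 = V a i0 (min j M) := by
    intro j
    unfold ph
    rw [Real.sq_sqrt (by rw [vv_eq]; exact (V_pos ha hi _).le), vv_eq]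
  have hpos : ∀ j, 0 < ph a i0 M j := by
    intro j
    unfold ph
    exact Real.sqrt_pos.2 (by rw [vv_eq]; exact V_pos ha hi _)
  have hmono : ∀ i j, i ≤ j → ph a i0 M i ≤ ph a i0 M j := by
    intro i j hij
    unfold ph
    refine Real.sqrt_le_sqrt ?_
    rw [vv_eq, vv_eq]
    exact V_mono ha hi (by omega)
  have hrat : ∀ i j, j ≤ i → (ph a i0 M i / ph a i0 M j) ^ 2 ≤
      (((min i M : ℕ) : ℝ) + i0) / (((min j M : ℕ) : ℝ) + i0) := by
    intro i j hij
    rw [div_pow, hsq, hsq]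
    exact V_ratio ha ha2 hi (by omega)
  have h4 : ph a i0 M M ^ 2 * ∑ j ∈ range M, (ph a i0 M j ^ 2)⁻¹ ≤ 2 / (1 - 2 * a) * ((M : ℝ) + i0) := by
    rw [hsq, min_self]
    have e : ∑ j ∈ range M, (ph a i0 M j ^ 2)⁻¹ = ∑ j ∈ range M, (V a i0 j)⁻¹ := by
      refine sum_congr rfl fun j hj => ?_
      rw [hsq, min_eq_left (mem_range.1 hj).le]
    rw [e]
    exact V_sum ha ha2 hi M
  refine ⟨hpos, ?_, hmono, ?_, ?_, ?_, h4, ?_⟩
  · unfold ph
    rw [vv_eq, Nat.zero_min]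
    unfold V
    simp
  · intro i hMi
    unfold ph
    rw [vv_eq, vv_eq, min_eq_right hMi, min_self]
  · rw [hsq, min_self]
    exact V_growth ha ha2 hi M
  · intro i j hij
    refine (hrat i j hij).trans ?_
    have hle : min j M ≤ min i M := by omega
    have hd : min i M ≤ min j M + (i - j) := by omega
    have hd' : ((min i M : ℕ) : ℝ) ≤ ((min j M : ℕ) : ℝ) + ((i - j : ℕ) : ℝ) := by exact_mod_cast hd
    have h0 : (0 : ℝ) ≤ ((min j M : ℕ) : ℝ) := Nat.cast_nonneg _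
    have hij0 : (0 : ℝ) ≤ ((i - j : ℕ) : ℝ) := Nat.cast_nonneg _
    rw [div_le_iff₀ (by linarith)]
    have e : (1 + ((i - j : ℕ) : ℝ) / i0) * (((min j M : ℕ) : ℝ) + i0) =
        ((min j M : ℕ) : ℝ) + i0 + ((i - j : ℕ) : ℝ) + ((i - j : ℕ) : ℝ) / i0 * ((min j M : ℕ) : ℝ) := by
      field_simp
      ring
    rw [e]
    have : 0 ≤ ((i - j : ℕ) : ℝ) / i0 * ((min j M : ℕ) : ℝ) := by positivity
    linarith
  · have hr1 : ∀ j ∈ range M, 1 ≤ ph a i0 M M / ph a i0 M j := by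
      intro j hj
      rw [one_le_div (hpos j)]
      exact hmono _ _ (mem_range.1 hj).le
    rcases le_or_gt i0 M with hc | hc
    · have h5 : ∑ j ∈ range M, (ph a i0 M M / ph a i0 M j - 1) ^ 2 ≤
          ph a i0 M M ^ 2 * ∑ j ∈ range M, (ph a i0 M j ^ 2)⁻¹ := by
        rw [mul_sum]
        refine sum_le_sum fun j hj => ?_
        have h6 := hr1 j hj
        have e : ph a i0 M M ^ 2 * (ph a i0 M j ^ 2)⁻¹ = (ph a i0 M M / ph a i0 M j) ^ 2 := by
          rw [div_pow, div_eq_mul_inv]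
        rw [e]
        nlinarith
      refine (h5.trans h4).trans ?_
      have h7 : (i0 : ℝ) ≤ M := by exact_mod_cast hc
      have hK0 : 0 < 2 / (1 - 2 * a) := by positivity
      have e : 4 / (1 - 2 * a) * (M : ℝ) = 2 / (1 - 2 * a) * ((M : ℝ) + M) := by ring
      rw [e]
      exact mul_le_mul_of_nonneg_left (by linarith) hK0.le
    · have h5 : ∀ j ∈ range M, (ph a i0 M M / ph a i0 M j - 1) ^ 2 ≤ 1 := by
        intro j hj
        have h6 := hr1 j hj
        have h7 := hrat M j (mem_range.1 hj).le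
        rw [min_self, min_eq_left (mem_range.1 hj).le] at h7
        have h8 : ((M : ℝ) + i0) / ((j : ℝ) + i0) ≤ 2 := by
          have hj0 : (0 : ℝ) ≤ j := Nat.cast_nonneg j
          rw [div_le_iff₀ (by linarith)]
          have : (M : ℝ) ≤ i0 := by exact_mod_cast hc.le
          linarith
        have h9 : (ph a i0 M M / ph a i0 M j) ^ 2 ≤ 2 := h7.trans h8
        nlinarith
      have h6 : ∑ j ∈ range M, (ph a i0 M M / ph a i0 M j - 1) ^ 2 ≤ ∑ _j ∈ range M, (1 : ℝ) :=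
        sum_le_sum h5
      rw [sum_const, card_range, nsmul_eq_mul, mul_one] at h6
      refine h6.trans ?_
      have h7 : 1 ≤ 4 / (1 - 2 * a) := by
        rw [one_le_div h12]
        linarith
      exact le_mul_of_one_le_left (Nat.cast_nonneg M) h7

end Pool.Agent.Helper75.KE
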